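import Mathlib
import Pool.Agent.Lib.H28I.LA4B

/-! # H55Y: the curves with complex multiplication by a nonmaximal order: lattices of index 2 and 3 -/

open NumberField IsDedekindDomain WeierstrassCurve

namespace H55Y

open H55P (IQ embF eF LF Per)
open H28I

/-- The identity of the isogeny, without the discriminants. -/
theorem y1_id {k : Type} [Field k] {A B e t u x : k} (hcs : (u = 0 ∧ e ^ 3 + A * e + B = 0 ∧ t = 3 * e ^ 2 + A) ∨
    (t = 2 * (3 * e ^ 2 + A) ∧ u = 4 * (e ^ 3 + A * e + B) ∧ 3 * e ^ 4 + 6 * A * e ^ 2 + 12 * B * e - A ^ 2 = 0)) (hx : x ≠ e) :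
    vx e t u x ^ 3 + (A - 5 * t) * vx e t u x + (B - 7 * (u + e * t)) = vd e t u x ^ 2 * (x ^ 3 + A * x + B) := by
  obtain ⟨z, rfl⟩ : ∃ z, x = z + e := ⟨x - e, by ring⟩
  have hz : z ≠ 0 := by
    rintro rfl
    exact hx (zero_add e)
  unfold vx vd
  rw [add_sub_cancel_right]
  rcases hcs with ⟨rfl, h1, rfl⟩ | ⟨rfl, rfl, h1⟩
  · obtain rfl : B = -e ^ 3 - A * e := by linear_combination h1
    field_simp
    ring
  · have e1 : (z + e + 2 * (3 * e ^ 2 + A) / z + 4 * (e ^ 3 + A * e + B) / z ^ 2) =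
        ((z + e) * z ^ 2 + 2 * (3 * e ^ 2 + A) * z + 4 * (e ^ 3 + A * e + B)) / z ^ 2 := by
      field_simp
    have e2 : 1 - 2 * (3 * e ^ 2 + A) / z ^ 2 - 2 * (4 * (e ^ 3 + A * e + B)) / z ^ 3 =
        (z ^ 3 - 2 * (3 * e ^ 2 + A) * z - 2 * (4 * (e ^ 3 + A * e + B))) / z ^ 3 := by
      field_simp
    rw [e1, e2]
    have hz6 : z ^ 6 ≠ 0 := pow_ne_zero 6 hz
    have e3 : (((z + e) * z ^ 2 + 2 * (3 * e ^ 2 + A) * z + 4 * (e ^ 3 + A * e + B)) / z ^ 2) ^ 3 +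
        (A - 5 * (2 * (3 * e ^ 2 + A))) *
          (((z + e) * z ^ 2 + 2 * (3 * e ^ 2 + A) * z + 4 * (e ^ 3 + A * e + B)) / z ^ 2) +
        (B - 7 * (4 * (e ^ 3 + A * e + B) + e * (2 * (3 * e ^ 2 + A)))) =
        (((z + e) * z ^ 2 + 2 * (3 * e ^ 2 + A) * z + 4 * (e ^ 3 + A * e + B)) ^ 3 +
        (A - 5 * (2 * (3 * e ^ 2 + A))) *
          ((z + e) * z ^ 2 + 2 * (3 * e ^ 2 + A) * z + 4 * (e ^ 3 + A * e + B)) * z ^ 4 +
        (B - 7 * (4 * (e ^ 3 + A * e + B) + e * (2 * (3 * e ^ 2 + A)))) * z ^ 6) / z ^ 6 := by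
      field_simp
    have e4 : ((z ^ 3 - 2 * (3 * e ^ 2 + A) * z - 2 * (4 * (e ^ 3 + A * e + B))) / z ^ 3) ^ 2 *
        ((z + e) ^ 3 + A * (z + e) + B) =
        ((z ^ 3 - 2 * (3 * e ^ 2 + A) * z - 2 * (4 * (e ^ 3 + A * e + B))) ^ 2 *
        ((z + e) ^ 3 + A * (z + e) + B)) / z ^ 6 := by
      field_simp
    rw [e3, e4]
    congr 1
    linear_combination (6 * z ^ 5 - 12 * z ^ 3 * e ^ 2 - 4 * z ^ 3 * A - 12 * z ^ 2 * e ^ 3 - 12 * z ^ 2 * e * A -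
      12 * z ^ 2 * B) * h1

/-- The invariants of the overlattice. -/
theorem over_gen {L L' : PeriodPair} {A B e t u : ℂ} (g2 : L.g₂ = -4 * A) (g3 : L.g₃ = -4 * B)
    (hle : ∀ z ∈ L.lattice, z ∈ L'.lattice)
    (hcs : (u = 0 ∧ e ^ 3 + A * e + B = 0 ∧ t = 3 * e ^ 2 + A) ∨
    (t = 2 * (3 * e ^ 2 + A) ∧ u = 4 * (e ^ 3 + A * e + B) ∧ 3 * e ^ 4 + 6 * A * e ^ 2 + 12 * B * e - A ^ 2 = 0))
    (hout : ∀ z, z ∉ L'.lattice → L.weierstrassP z ≠ e)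
    (hx : ∀ z, z ∉ L'.lattice → L'.weierstrassP z = vx e t u (L.weierstrassP z)) :
    L'.g₂ = -4 * (A - 5 * t) ∧ L'.g₃ = -4 * (B - 7 * (u + e * t)) := by
  have hkey : ∀ z, z ∉ L'.lattice → (4 * (A - 5 * t) + L'.g₂) * L'.weierstrassP z + (4 * (B - 7 * (u + e * t)) + L'.g₃) = 0 := by
    intro z hz
    have hzL : z ∉ L.lattice := fun h => hz (hle z h)
    have e1 := L'.derivWeierstrassP_sq z hz
    have e2 := L.derivWeierstrassP_sq z hzL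
    have e3 := y1_id hcs (hout z hz)
    rw [iso_y hle hout hx hz] at e1
    rw [← hx z hz] at e3
    rw [g2, g3] at e2
    linear_combination e1 - (vd e t u (L.weierstrassP z)) ^ 2 * e2 + 4 * e3
  obtain ⟨z0, h0, h0'⟩ := H55K.CC.wp_surj L' 0
  obtain ⟨z1, h1, h1'⟩ := H55K.CC.wp_surj L' 1
  have k0 := hkey z0 h0
  have k1 := hkey z1 h1
  rw [h0'] at k0
  rw [h1'] at k1
  refine ⟨?_, ?_⟩
  · linear_combination k1 - k0
  · linear_combination k0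

theorem y1_two_eq (L : PeriodPair) {A B : ℂ} (g2 : L.g₂ = -4 * A) (g3 : L.g₃ = -4 * B) {w : ℂ} (hw : w ∉ L.lattice)
    (h2 : 2 * w ∈ L.lattice) : L.weierstrassP w ^ 3 + A * L.weierstrassP w + B = 0 := by
  have e2 := L.derivWeierstrassP_sq w hw
  rw [la3_deriv L h2, g2, g3] at e2
  linear_combination (-1 / 4 : ℂ) * e2

/-- Index 2. -/
theorem over_two {L L' : PeriodPair} {A B : ℂ} (g2 : L.g₂ = -4 * A) (g3 : L.g₃ = -4 * B) {w : ℂ} (hw : w ∉ L.lattice)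
    (h2 : 2 * w ∈ L.lattice) (hL' : ∀ z, z ∈ L'.lattice ↔ ∃ k : ℤ, z - k * w ∈ L.lattice) {e : ℂ} (he : L.weierstrassP w = e) :
    e ^ 3 + A * e + B = 0 ∧ L'.g₂ = -4 * (-4 * A - 15 * e ^ 2) ∧ L'.g₃ = -4 * (-22 * e ^ 3 - 8 * A * e) := by
  have hR := rep_two hw h2 hL'
  have h3 := y1_two_eq L g2 g3 hw h2
  rw [he] at h3
  have hout : ∀ z, z ∉ L'.lattice → z ∉ L.lattice ∧ z + w ∉ L.lattice := by
    intro z hz
    refine ⟨fun h1 => hz (hR.le z h1), fun h1 => hz ((hL' z).2 ⟨-1, ?_⟩)⟩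
    push_cast
    have e1 : z - -1 * w = z + w := by ring
    rw [e1]
    exact h1
  obtain ⟨a, b⟩ := over_gen (t := 3 * e ^ 2 + A) (u := 0) g2 g3 hR.le (Or.inl ⟨rfl, h3, rfl⟩) (fun z hz => by
    obtain ⟨a1, a2⟩ := hout z hz
    have a3 := (two_add L g2 g3 hw h2 a1 a2).1
    rwa [he] at a3) (fun z hz => by
    obtain ⟨a1, a2⟩ := hout z hz
    have a3 := (two_add L g2 g3 hw h2 a1 a2).2
    rw [sum_wp hR hz, Finset.sum_singleton, a3, he]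
    unfold vx
    rw [zero_div, add_zero])
  refine ⟨h3, ?_, ?_⟩
  · rw [a]; ring
  · rw [b]; linear_combination (-4 : ℂ) * h3

theorem y1_three_eq (L : PeriodPair) {A B : ℂ} (g2 : L.g₂ = -4 * A) (g3 : L.g₃ = -4 * B) {w : ℂ} (hw : w ∉ L.lattice)
    (h3 : 3 * w ∈ L.lattice) :
    3 * L.weierstrassP w ^ 4 + 6 * A * L.weierstrassP w ^ 2 + 12 * B * L.weierstrassP w - A ^ 2 = 0 := by
  have h2 : 2 * w ∉ L.lattice := by
    intro h2
    apply hw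
    have := sub_mem h3 h2
    rwa [show 3 * w - 2 * w = w by ring] at this
  have e1 := L.derivWeierstrassP_sq w hw
  rw [g2, g3] at e1
  have h4 := H35P.dbl_x L w hw h2
  have h5 := H35P.wpd_ne L w hw h2
  have h6 : L.weierstrassP (2 * w) = L.weierstrassP w := by
    have h7 := H55K.CC.wp_per L (-w) h3
    rw [show -w + 3 * w = 2 * w by ring, L.weierstrassP_neg] at h7
    exact h7
  rw [h6] at h4
  unfold H35P.md at h4
  rw [g2, div_pow] at h4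
  have h8 : (6 * L.weierstrassP w ^ 2 - -4 * A / 2) ^ 2 / L.derivWeierstrassP w ^ 2 = 12 * L.weierstrassP w := by
    linear_combination (-4 : ℂ) * h4
  rw [div_eq_iff (pow_ne_zero 2 h5), e1] at h8
  linear_combination (-1 / 4 : ℂ) * h8

/-- Index 3. -/
theorem over_three {L L' : PeriodPair} {A B : ℂ} (g2 : L.g₂ = -4 * A) (g3 : L.g₃ = -4 * B) {w : ℂ} (hw : w ∉ L.lattice)
    (h3 : 3 * w ∈ L.lattice) (hL' : ∀ z, z ∈ L'.lattice ↔ ∃ k : ℤ, z - k * w ∈ L.lattice) {e : ℂ} (he : L.weierstrassP w = e) :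
    3 * e ^ 4 + 6 * A * e ^ 2 + 12 * B * e - A ^ 2 = 0 ∧ L'.g₂ = -4 * (-9 * A - 30 * e ^ 2) ∧
      L'.g₃ = -4 * (-27 * B - 70 * e ^ 3 - 42 * A * e) := by
  obtain ⟨hR, hne⟩ := rep_three hw h3 hL'
  have h4 := y1_three_eq L g2 g3 hw h3
  rw [he] at h4
  have hout : ∀ z, z ∉ L'.lattice → z ∉ L.lattice ∧ z + w ∉ L.lattice ∧ z - w ∉ L.lattice := by
    intro z hz
    refine ⟨fun h1 => hz (hR.le z h1), fun h1 => hz ((hL' z).2 ⟨-1, ?_⟩), fun h1 => hz ((hL' z).2 ⟨1, ?_⟩)⟩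
    · push_cast
      have e1 : z - -1 * w = z + w := by ring
      rw [e1]
      exact h1
    · push_cast
      rw [one_mul]
      exact h1
  obtain ⟨a, b⟩ := over_gen (t := 2 * (3 * e ^ 2 + A)) (u := 4 * (e ^ 3 + A * e + B)) g2 g3 hR.le (Or.inr ⟨rfl, rfl, h4⟩)
    (fun z hz => by
    obtain ⟨a1, a2, a3⟩ := hout z hz
    have a4 := (three_add L g2 g3 hw a1 a2 a3).1
    rwa [he] at a4) (fun z hz => by
    obtain ⟨a1, a2, a3⟩ := hout z hz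
    have a4 := (three_add L g2 g3 hw a1 a2 a3).2
    rw [sum_wp hR hz, Finset.sum_pair hne, L.weierstrassP_neg, ← sub_eq_add_neg, a4, he]
    unfold vx
    ring)
  refine ⟨h4, ?_, ?_⟩
  · rw [a]; ring
  · rw [b]; ring

end H55Y
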