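import Mathlib
import Pool.Agent.Lib.H55Y.Y1
import Pool.Agent.Lib.H55Y.Y2

/-! # H55Y: the field of discriminant -7: the points of order two -/

open NumberField IsDedekindDomain WeierstrassCurve

namespace H55Y

open H55P (IQ embF eF LF Per Nm)
open H55K (cj)
open H55W

variable {F : Type} [Field F] [NumberField F] [IQ F]

/-- The point 1/α of order two. -/
theorem y3_one {α : 𝓞 F} (hα : α ^ 2 - α + 2 = 0) (hG : Gen α) {A B : ℂ} (g2 : (LF F).g₂ = -4 * A) (g3 : (LF F).g₃ = -4 * B) :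
    (LF F).weierstrassP ((1 - eF F α) / 2) ^ 3 + A * (LF F).weierstrassP ((1 - eF F α) / 2) + B = 0 ∧
      (eF F α) ^ 2 * A = 5 * (LF F).weierstrassP ((1 - eF F α) / 2) ^ 2 := by
  set a := eF F α with ha
  have hc : a ^ 2 - a + 2 = 0 := by
    have := congrArg (eF F) hα
    rwa [map_add, map_sub, map_pow, map_ofNat, map_zero] at this
  have ha0 : a ≠ 0 := by
    intro h
    rw [h] at hc
    norm_num at hc
  have hinv : a⁻¹ = (1 - a) / 2 := by
    refine inv_eq_of_mul_eq_one_right ?_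
    linear_combination (-1 / 2 : ℂ) * hc
  obtain ⟨L', hL, h2, h3⟩ := H55K.lat_scale (LF F) a⁻¹ (inv_ne_zero ha0)
  have hw : (1 - a) / 2 ∉ (LF F).lattice := by
    intro h
    have e1 : (1 - a) / 2 = eF F (((1 : ℤ) : 𝓞 F) + ((-1 : ℤ) : 𝓞 F) * α) / 2 := by
      push_cast
      rw [map_add, map_one, map_mul, map_neg, map_one, ← ha]
      ring
    rw [e1] at h
    have := (two_int hG (y2_half h)).1
    omega
  have hw2 : 2 * ((1 - a) / 2) ∈ (LF F).lattice := by
    rw [H55P.mem_LF]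
    exact ⟨1 - α, by rw [map_sub, map_one, ← ha]; ring⟩
  have hL' : ∀ z, z ∈ L'.lattice ↔ ∃ k : ℤ, z - k * ((1 - a) / 2) ∈ (LF F).lattice := by
    intro z
    rw [hL]
    constructor
    · rintro ⟨l, hl, rfl⟩
      obtain ⟨y, rfl⟩ := (H55P.mem_LF l).1 hl
      obtain ⟨c, d, rfl⟩ := hG.rep y
      refine ⟨c, (H55P.mem_LF _).2 ⟨d, ?_⟩⟩
      rw [hinv, map_add, map_mul, map_intCast, map_intCast, ← ha]
      linear_combination (-(d : ℂ) / 2) * hc
    · rintro ⟨k, hk⟩
      obtain ⟨y, hy⟩ := (H55P.mem_LF _).1 hk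
      refine ⟨eF F (k + α * y), (H55P.mem_LF _).2 ⟨_, rfl⟩, ?_⟩
      rw [hinv, map_add, map_mul, map_intCast, ← ha, ← hy]
      linear_combination (1 / 2 : ℂ) * (z - k * ((1 - a) / 2)) * hc
  obtain ⟨e1, e2, -⟩ := over_two g2 g3 hw hw2 hL' (e := (LF F).weierstrassP ((1 - a) / 2)) rfl
  refine ⟨e1, ?_⟩
  rw [h2, g2, inv_pow, div_inv_eq_mul] at e2
  have h4 : a ^ 4 = 2 - 3 * a := by linear_combination (a ^ 2 + a - 1) * hc
  linear_combination (1 / 12 : ℂ) * e2 + (1 / 3 : ℂ) * A * h4 + A * hc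

/-- The invariants of the lattice of integers in terms of the point 1/2. -/
theorem y3_rel {α : 𝓞 F} (hα : α ^ 2 - α + 2 = 0) (hG : Gen α) {A B : ℂ} (g2 : (LF F).g₂ = -4 * A) (g3 : (LF F).g₃ = -4 * B)
    {e : ℂ} (he : (LF F).weierstrassP (1 / 2) = e) : 7 * A = -5 * e ^ 2 ∧ 7 * B = -2 * e ^ 3 := by
  set a := eF F α with ha
  have hc : a ^ 2 - a + 2 = 0 := by
    have := congrArg (eF F) hα
    rwa [map_add, map_sub, map_pow, map_ofNat, map_zero] at this
  have hα' : (1 - α) ^ 2 - (1 - α) + 2 = 0 := by linear_combination hα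
  have hG' : Gen (1 - α) := by
    refine ⟨fun x => ?_, fun h => hG.ne ?_⟩
    · obtain ⟨c, d, rfl⟩ := hG.rep x
      exact ⟨c + d, -d, by push_cast; ring⟩
    · rw [map_sub, map_one] at h
      linear_combination -h
  obtain ⟨p1, q1⟩ := y3_one hα hG g2 g3
  obtain ⟨p2, q2⟩ := y3_one hα' hG' g2 g3
  have e1 : (1 - eF F (1 - α)) / 2 = a / 2 := by
    rw [map_sub, map_one, ← ha]
    ring
  have e2 : eF F (1 - α) = 1 - a := by rw [map_sub, map_one, ← ha]
  rw [e1] at p2 q2
  rw [e2] at q2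
  rw [← ha] at p1 q1
  -- the points
  have hcase : ∀ c d : ℤ, (¬ 2 ∣ c ∨ ¬ 2 ∣ d) → ((c : ℂ) + d * a) / 2 ∉ (LF F).lattice := by
    intro c d hcd h
    have e3 : ((c : ℂ) + d * a) / 2 = eF F ((c : 𝓞 F) + (d : 𝓞 F) * α) / 2 := by
      rw [map_add, map_mul, map_intCast, map_intCast, ← ha]
    rw [e3] at h
    obtain ⟨h1, h2⟩ := two_int hG (y2_half h)
    rcases hcd with h3 | h3
    · exact h3 h1
    · exact h3 h2
  have m1 : (1 - a) / 2 ∉ (LF F).lattice := by
    have := hcase 1 (-1) (Or.inl (by omega))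
    push_cast at this
    rwa [show (1 + -1 * a) / 2 = (1 - a) / 2 by ring] at this
  have m2 : a / 2 ∉ (LF F).lattice := by
    have := hcase 0 1 (Or.inr (by omega))
    push_cast at this
    rwa [show (0 + 1 * a) / 2 = a / 2 by ring] at this
  have m3 : (1 : ℂ) / 2 ∉ (LF F).lattice := by
    have := hcase 1 0 (Or.inl (by omega))
    push_cast at this
    rwa [show (1 + 0 * a) / 2 = 1 / 2 by ring] at this
  have n12 : (LF F).weierstrassP ((1 - a) / 2) ≠ (LF F).weierstrassP (a / 2) := by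
    refine H35P.wp_ne (LF F) _ _ m1 m2 ?_ ?_
    · rwa [show (1 - a) / 2 + a / 2 = 1 / 2 by ring]
    · have := hcase 1 (-2) (Or.inl (by omega))
      push_cast at this
      rwa [show (1 - a) / 2 - a / 2 = (1 + -2 * a) / 2 by ring]
  have n13 : (LF F).weierstrassP ((1 - a) / 2) ≠ e := by
    rw [← he]
    refine H35P.wp_ne (LF F) _ _ m1 m3 ?_ ?_
    · have := hcase 2 (-1) (Or.inr (by omega))
      push_cast at this
      rwa [show (1 - a) / 2 + 1 / 2 = (2 + -1 * a) / 2 by ring]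
    · have := hcase 0 (-1) (Or.inr (by omega))
      push_cast at this
      rwa [show (1 - a) / 2 - 1 / 2 = (0 + -1 * a) / 2 by ring]
  have n23 : (LF F).weierstrassP (a / 2) ≠ e := by
    rw [← he]
    refine H35P.wp_ne (LF F) _ _ m2 m3 ?_ ?_
    · have := hcase 1 1 (Or.inl (by omega))
      push_cast at this
      rwa [show a / 2 + 1 / 2 = (1 + 1 * a) / 2 by ring]
    · have := hcase (-1) 1 (Or.inl (by omega))
      push_cast at this
      rwa [show a / 2 - 1 / 2 = (-1 + 1 * a) / 2 by ring]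
  have p3 : e ^ 3 + A * e + B = 0 := by
    have h2 : 2 * ((1 : ℂ) / 2) ∈ (LF F).lattice := (H55P.mem_LF _).2 ⟨1, by rw [map_one]; norm_num⟩
    have := y1_two_eq (LF F) g2 g3 m3 h2
    rwa [he] at this
  set x := (LF F).weierstrassP ((1 - a) / 2)
  set y := (LF F).weierstrassP (a / 2)
  have s1 : x ^ 2 + x * y + y ^ 2 + A = 0 := by
    have h1 : (x - y) * (x ^ 2 + x * y + y ^ 2 + A) = 0 := by linear_combination p1 - p2
    exact (mul_eq_zero.1 h1).resolve_left (sub_ne_zero.2 n12)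
  have s2 : x ^ 2 + x * e + e ^ 2 + A = 0 := by
    have h1 : (x - e) * (x ^ 2 + x * e + e ^ 2 + A) = 0 := by linear_combination p1 - p3
    exact (mul_eq_zero.1 h1).resolve_left (sub_ne_zero.2 n13)
  have s3 : x + y + e = 0 := by
    have h1 : (y - e) * (x + y + e) = 0 := by linear_combination s1 - s2
    exact (mul_eq_zero.1 h1).resolve_left (sub_ne_zero.2 n23)
  have s4 : 5 * (x * y) = -2 * A := by
    linear_combination 5 * s1 + q1 + q2 - 2 * A * hc
  have s5 : e = -x - y := by linear_combination s3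
  have s6 : 7 * A = -5 * e ^ 2 := by
    rw [s5]
    linear_combination 5 * s1 + s4
  refine ⟨s6, ?_⟩
  have s7 : B = -(x * y * e) := by
    have : B = -(e ^ 3 + A * e) := by linear_combination p3
    rw [this, s5]
    linear_combination (x + y) * s1
  rw [s7]
  have s8 : x * y = -2 / 5 * A := by linear_combination (1 / 5 : ℂ) * s4
  rw [s8]
  linear_combination (2 / 5 : ℂ) * e * s6

end H55Y
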