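import Mathlib
import Pool.Agent.Lib.H55K.Z1A
import Pool.Agent.Lib.H55Y.Y3

/-! # H55Y: the four nonmaximal orders -/

open NumberField IsDedekindDomain WeierstrassCurve

namespace H55Y

open H55P (IQ embF eF LF Per Nm)
open H55K (cj)
open H55W

variable {F : Type} [Field F] [NumberField F] [IQ F]

theorem y4_idx {θ : 𝓞 F} (hG : Gen θ) {f : ℕ} (hf : 2 ≤ f) {L : PeriodPair}
    (hL : ∀ z, z ∈ L.lattice ↔ ∃ (a : ℤ) (y : 𝓞 F), z = a + f * eF F y) :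
    eF F θ ∉ L.lattice ∧ f * eF F θ ∈ L.lattice ∧
      ∀ z, z ∈ (LF F).lattice ↔ ∃ k : ℤ, z - k * eF F θ ∈ L.lattice := by
  refine ⟨fun h => ?_, (hL _).2 ⟨0, θ, by push_cast; ring⟩, fun z => ?_⟩
  · obtain ⟨a, y, hy⟩ := (hL _).1 h
    apply gen_out hG hf a y
    apply H55P.eF_inj
    rw [map_add, map_mul, map_intCast, map_natCast, hy]
  · rw [H55P.mem_LF]
    constructor
    · rintro ⟨x, rfl⟩
      obtain ⟨c, d, rfl⟩ := hG.rep x
      refine ⟨d, (hL _).2 ⟨c, 0, ?_⟩⟩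
      rw [map_add, map_mul, map_intCast, map_intCast, map_zero]
      ring
    · rintro ⟨k, hk⟩
      obtain ⟨a, y, hy⟩ := (hL _).1 hk
      refine ⟨a + f * y + k * θ, ?_⟩
      rw [map_add, map_add, map_mul, map_mul, map_intCast, map_intCast, map_natCast]
      linear_combination hy

/-- The multiples of an order by a number c: if g₂ and g₃ do not change then c is in the order. -/
theorem y4_mem {f : ℕ} {L : PeriodPair} (hL : ∀ z, z ∈ L.lattice ↔ ∃ (a : ℤ) (y : 𝓞 F), z = a + f * eF F y) {c : ℂ} (hc : c ≠ 0)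
    (h2 : L.g₂ / c ^ 4 = L.g₂) (h3 : L.g₃ / c ^ 6 = L.g₃) : c ∈ L.lattice := by
  obtain ⟨L', hL', a, b⟩ := H55K.lat_scale L c hc
  have h6 : L'.lattice = L.lattice := H55K.lat_eq L' L (a.trans h2) (b.trans h3)
  rw [← h6, hL']
  exact ⟨1, (hL 1).2 ⟨1, 0, by rw [map_zero]; push_cast; ring⟩, (mul_one c).symm⟩

theorem y4_disc {A B : ℚ} (hd : 4 * A ^ 3 + 27 * B ^ 2 ≠ 0) : 4 * (A : ℂ) ^ 3 + 27 * (B : ℂ) ^ 2 ≠ 0 := by
  exact_mod_cast hd

/-- Discriminant -12. -/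
theorem case_w2 {w : 𝓞 F} (hw : w ^ 2 + w + 1 = 0) (hG : Gen w) {A B : ℚ} (hd : 4 * A ^ 3 + 27 * B ^ 2 ≠ 0) {Om : ℂ}
    (h : PerO F 2 (A : ℂ) (B : ℂ) Om) : ∃ a : ℚ, A = -15 * a ^ 2 ∧ B = -22 * a ^ 3 ∧
      Per F ((0 : ℚ) : ℂ) ((-a ^ 3 : ℚ) : ℂ) (2 * Om) := by
  obtain ⟨hO, L, hL, g2, g3⟩ := h
  obtain ⟨h1, h2, h3⟩ := y4_idx hG (f := 2) le_rfl (L := L) (by exact_mod_cast hL)
  obtain ⟨e0, he0⟩ : ∃ e, L.weierstrassP (eF F w) = e := ⟨_, rfl⟩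
  obtain ⟨e1, e2, e3⟩ := over_two (A := A * Om ^ 4) (B := B * Om ^ 6) (by rw [g2]; ring) (by rw [g3]; ring) h1
    (by exact_mod_cast h2) h3 he0
  obtain ⟨e, rfl⟩ : ∃ e, e0 = e * Om ^ 2 := ⟨e0 / Om ^ 2, by field_simp⟩
  have hO4 : Om ^ 4 ≠ 0 := pow_ne_zero 4 hO
  have hO6 : Om ^ 6 ≠ 0 := pow_ne_zero 6 hO
  rw [g2_w hw] at e2
  have f1 : 4 * (A : ℂ) = -15 * e ^ 2 := by
    have : (4 * (A : ℂ) + 15 * e ^ 2) * Om ^ 4 = 0 := by linear_combination (-1 / 4 : ℂ) * e2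
    linear_combination (mul_eq_zero.1 this).resolve_right hO4
  have f2 : 4 * (B : ℂ) = 11 * e ^ 3 := by
    have : (e ^ 3 + A * e + B) * Om ^ 6 = 0 := by linear_combination e1
    linear_combination 4 * (mul_eq_zero.1 this).resolve_right hO6 - e * f1
  have he : e ≠ 0 := by
    rintro rfl
    apply y4_disc hd
    have a1 : (A : ℂ) = 0 := by linear_combination (1 / 4 : ℂ) * f1
    have a2 : (B : ℂ) = 0 := by linear_combination (1 / 4 : ℂ) * f2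
    rw [a1, a2]
    ring
  have hA : (A : ℂ) ≠ 0 := by
    intro h0
    rw [h0, mul_zero] at f1
    have : e ^ 2 = 0 := by linear_combination (1 / 15 : ℂ) * f1
    exact he (pow_eq_zero_iff two_ne_zero |>.1 this)
  obtain ⟨a, ha⟩ : ∃ a : ℚ, (a : ℂ) = -e / 2 := by
    refine ⟨15 * B / (22 * A), ?_⟩
    push_cast
    rw [div_eq_iff (mul_ne_zero (by norm_num) hA)]
    linear_combination (15 / 4 : ℂ) * f2 + (11 / 4 : ℂ) * e * f1
  have he' : e = -2 * a := by linear_combination (2 : ℂ) * ha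
  rw [he'] at f1 f2 e3
  refine ⟨a, ?_, ?_, mul_ne_zero two_ne_zero hO, ?_, ?_⟩
  · have : (A : ℂ) = ((-15 * a ^ 2 : ℚ) : ℂ) := by
      push_cast
      linear_combination (1 / 4 : ℂ) * f1
    exact_mod_cast this
  · have : (B : ℂ) = ((-22 * a ^ 3 : ℚ) : ℂ) := by
      push_cast
      linear_combination (1 / 4 : ℂ) * f2
    exact_mod_cast this
  · rw [g2_w hw]
    push_cast
    ring
  · rw [e3]
    push_cast
    linear_combination (-16 : ℂ) * a * Om ^ 6 * f1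

/-- Discriminant -16. -/
theorem case_i2 {i : 𝓞 F} (hi : i ^ 2 = -1) (hG : Gen i) {A B : ℚ} (hd : 4 * A ^ 3 + 27 * B ^ 2 ≠ 0) {Om : ℂ}
    (h : PerO F 2 (A : ℂ) (B : ℂ) Om) : ∃ a : ℚ, A = -11 * a ^ 2 ∧ B = -14 * a ^ 3 ∧
      Per F ((-a ^ 2 : ℚ) : ℂ) ((0 : ℚ) : ℂ) (2 * Om) := by
  obtain ⟨hO, L, hL, g2, g3⟩ := h
  obtain ⟨h1, h2, h3⟩ := y4_idx hG (f := 2) le_rfl (L := L) (by exact_mod_cast hL)
  obtain ⟨e0, he0⟩ : ∃ e, L.weierstrassP (eF F i) = e := ⟨_, rfl⟩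
  obtain ⟨e1, e2, e3⟩ := over_two (A := A * Om ^ 4) (B := B * Om ^ 6) (by rw [g2]; ring) (by rw [g3]; ring) h1
    (by exact_mod_cast h2) h3 he0
  obtain ⟨e, rfl⟩ : ∃ e, e0 = e * Om ^ 2 := ⟨e0 / Om ^ 2, by field_simp⟩
  have hO4 : Om ^ 4 ≠ 0 := pow_ne_zero 4 hO
  have hO6 : Om ^ 6 ≠ 0 := pow_ne_zero 6 hO
  rw [g3_i hi] at e3
  have f0 : (e : ℂ) ^ 3 + A * e + B = 0 := by
    have : (e ^ 3 + A * e + B) * Om ^ 6 = 0 := by linear_combination e1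
    exact (mul_eq_zero.1 this).resolve_right hO6
  have he : e ≠ 0 := by
    rintro rfl
    have hB : (B : ℂ) = 0 := by linear_combination f0
    have hIc : (eF F i) ^ 2 = -1 := by
      have := congrArg (eF F) hi
      rwa [map_pow, map_neg, map_one] at this
    have hI0 : eF F i ≠ 0 := by
      intro h0
      rw [h0] at hIc
      norm_num at hIc
    apply h1
    refine y4_mem hL hI0 ?_ ?_
    · have : (eF F i) ^ 4 = 1 := by
        have : (eF F i) ^ 4 = ((eF F i) ^ 2) ^ 2 := by ring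
        rw [this, hIc]
        norm_num
      rw [this, div_one]
    · rw [g3, hB]
      simp
  have f1 : 4 * (A : ℂ) = -11 * e ^ 2 := by
    have : (e * (4 * (A : ℂ) + 11 * e ^ 2)) * Om ^ 6 = 0 := by linear_combination (-1 / 8 : ℂ) * e3
    have := (mul_eq_zero.1 ((mul_eq_zero.1 this).resolve_right hO6)).resolve_left he
    linear_combination this
  have f2 : 4 * (B : ℂ) = 7 * e ^ 3 := by linear_combination 4 * f0 - e * f1
  have hA : (A : ℂ) ≠ 0 := by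
    intro h0
    rw [h0, mul_zero] at f1
    have : e ^ 2 = 0 := by linear_combination (1 / 11 : ℂ) * f1
    exact he (pow_eq_zero_iff two_ne_zero |>.1 this)
  obtain ⟨a, ha⟩ : ∃ a : ℚ, (a : ℂ) = -e / 2 := by
    refine ⟨11 * B / (14 * A), ?_⟩
    push_cast
    rw [div_eq_iff (mul_ne_zero (by norm_num) hA)]
    linear_combination (11 / 4 : ℂ) * f2 + (7 / 4 : ℂ) * e * f1
  have he' : e = -2 * a := by linear_combination (2 : ℂ) * ha
  rw [he'] at f1 f2 e2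
  refine ⟨a, ?_, ?_, mul_ne_zero two_ne_zero hO, ?_, ?_⟩
  · have : (A : ℂ) = ((-11 * a ^ 2 : ℚ) : ℂ) := by
      push_cast
      linear_combination (1 / 4 : ℂ) * f1
    exact_mod_cast this
  · have : (B : ℂ) = ((-14 * a ^ 3 : ℚ) : ℂ) := by
      push_cast
      linear_combination (1 / 4 : ℂ) * f2
    exact_mod_cast this
  · rw [e2]
    push_cast
    linear_combination (4 : ℂ) * Om ^ 4 * f1
  · rw [g3_i hi]
    push_cast
    ring

/-- Discriminant -27. -/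
theorem case_w3 {w : 𝓞 F} (hw : w ^ 2 + w + 1 = 0) (hG : Gen w) {A B : ℚ} (hd : 4 * A ^ 3 + 27 * B ^ 2 ≠ 0) {Om : ℂ}
    (h : PerO F 3 (A : ℂ) (B : ℂ) Om) : ∃ a : ℚ, A = -480 * a ^ 2 ∧ B = -4048 * a ^ 3 ∧
      Per F ((0 : ℚ) : ℂ) ((-16 * a ^ 3 : ℚ) : ℂ) (3 * Om) := by
  obtain ⟨hO, L, hL, g2, g3⟩ := h
  obtain ⟨h1, h2, h3⟩ := y4_idx hG (f := 3) (by norm_num) (L := L) (by exact_mod_cast hL)
  obtain ⟨e0, he0⟩ : ∃ e, L.weierstrassP (eF F w) = e := ⟨_, rfl⟩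
  obtain ⟨e1, e2, e3⟩ := over_three (A := A * Om ^ 4) (B := B * Om ^ 6) (by rw [g2]; ring) (by rw [g3]; ring) h1
    (by exact_mod_cast h2) h3 he0
  obtain ⟨e, rfl⟩ : ∃ e, e0 = e * Om ^ 2 := ⟨e0 / Om ^ 2, by field_simp⟩
  have hO4 : Om ^ 4 ≠ 0 := pow_ne_zero 4 hO
  have hO8 : Om ^ 8 ≠ 0 := pow_ne_zero 8 hO
  rw [g2_w hw] at e2
  have f1 : 3 * (A : ℂ) = -10 * e ^ 2 := by
    have : (9 * (A : ℂ) + 30 * e ^ 2) * Om ^ 4 = 0 := by linear_combination (-1 / 4 : ℂ) * e2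
    linear_combination (1 / 3 : ℂ) * (mul_eq_zero.1 this).resolve_right hO4
  have f0 : 3 * e ^ 4 + 6 * A * e ^ 2 + 12 * B * e - (A : ℂ) ^ 2 = 0 := by
    have : (3 * e ^ 4 + 6 * A * e ^ 2 + 12 * B * e - (A : ℂ) ^ 2) * Om ^ 8 = 0 := by linear_combination e1
    exact (mul_eq_zero.1 this).resolve_right hO8
  have he : e ≠ 0 := by
    rintro rfl
    have hA : (A : ℂ) = 0 := by linear_combination (1 / 3 : ℂ) * f1
    have hc : (eF F w) ^ 2 + eF F w + 1 = 0 := by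
      have := congrArg (eF F) hw
      rwa [map_add, map_add, map_pow, map_one, map_zero] at this
    have hI0 : eF F w ≠ 0 := by
      intro h0
      rw [h0] at hc
      norm_num at hc
    apply h1
    refine y4_mem hL hI0 ?_ ?_
    · rw [g2, hA]
      simp
    · have : (eF F w) ^ 6 = 1 := by
        linear_combination ((eF F w) ^ 4 - (eF F w) ^ 3 + eF F w - 1) * hc
      rw [this, div_one]
  have f2 : 108 * (B : ℂ) = 253 * e ^ 3 := by
    have : e * (108 * (B : ℂ) - 253 * e ^ 3) = 0 := by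
      linear_combination 9 * f0 + (3 * A - 10 * e ^ 2 - 18 * e ^ 2) * f1
    have := (mul_eq_zero.1 this).resolve_left he
    linear_combination this
  have hA : (A : ℂ) ≠ 0 := by
    intro h0
    rw [h0, mul_zero] at f1
    have : e ^ 2 = 0 := by linear_combination (1 / 10 : ℂ) * f1
    exact he (pow_eq_zero_iff two_ne_zero |>.1 this)
  obtain ⟨a, ha⟩ : ∃ a : ℚ, (a : ℂ) = -e / 12 := by
    refine ⟨30 * B / (253 * A), ?_⟩
    push_cast
    rw [div_eq_iff (mul_ne_zero (by norm_num) hA)]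
    linear_combination (30 / 108 : ℂ) * f2 + (253 / 36 : ℂ) * e * f1
  have he' : e = -12 * a := by linear_combination (12 : ℂ) * ha
  rw [he'] at f1 f2 e3
  refine ⟨a, ?_, ?_, mul_ne_zero three_ne_zero hO, ?_, ?_⟩
  · have : (A : ℂ) = ((-480 * a ^ 2 : ℚ) : ℂ) := by
      push_cast
      linear_combination (1 / 3 : ℂ) * f1
    exact_mod_cast this
  · have : (B : ℂ) = ((-4048 * a ^ 3 : ℚ) : ℂ) := by
      push_cast
      linear_combination (1 / 108 : ℂ) * f2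
    exact_mod_cast this
  · rw [g2_w hw]
    push_cast
    ring
  · rw [e3]
    push_cast
    linear_combination (1 : ℂ) * Om ^ 6 * f2 - 672 * a * Om ^ 6 * f1

/-- Discriminant -28. -/
theorem case_a2 {α : 𝓞 F} (hα : α ^ 2 - α + 2 = 0) (hG : Gen α) {A B : ℚ} (hd : 4 * A ^ 3 + 27 * B ^ 2 ≠ 0) {Om : ℂ}
    (h : PerO F 2 (A : ℂ) (B : ℂ) Om) : ∃ a : ℚ, A = -595 * a ^ 2 ∧ B = 5586 * a ^ 3 ∧
      Per F ((-35 * a ^ 2 : ℚ) : ℂ) ((98 * a ^ 3 : ℚ) : ℂ) (2 * Om) := by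
  obtain ⟨hO, L, hL, g2, g3⟩ := h
  obtain ⟨e0, he0⟩ : ∃ e, (LF F).weierstrassP (1 / 2) = e := ⟨_, rfl⟩
  obtain ⟨A₁, hA₁⟩ : ∃ A₁, (LF F).g₂ = -4 * A₁ := ⟨-(LF F).g₂ / 4, by ring⟩
  obtain ⟨B₁, hB₁⟩ : ∃ B₁, (LF F).g₃ = -4 * B₁ := ⟨-(LF F).g₃ / 4, by ring⟩
  obtain ⟨r1, r2⟩ := y3_rel hα hG hA₁ hB₁ he0
  obtain ⟨L₂, hL₂, s2, s3⟩ := H55K.lat_scale L (1 / 2) (by norm_num)
  have hw : (1 : ℂ) / 2 ∉ (LF F).lattice := by
    intro hh
    have e1 : (1 : ℂ) / 2 = eF F (((1 : ℤ) : 𝓞 F) + ((0 : ℤ) : 𝓞 F) * α) / 2 := by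
      push_cast
      rw [map_add, map_one, zero_mul, map_zero, add_zero]
    rw [e1] at hh
    have := (two_int hG (y2_half hh)).1
    omega
  have hw2 : 2 * ((1 : ℂ) / 2) ∈ (LF F).lattice := (H55P.mem_LF _).2 ⟨1, by rw [map_one]; norm_num⟩
  have hL' : ∀ z, z ∈ L₂.lattice ↔ ∃ k : ℤ, z - k * (1 / 2) ∈ (LF F).lattice := by
    intro z
    rw [hL₂]
    constructor
    · rintro ⟨l, hl, rfl⟩
      obtain ⟨c, y, rfl⟩ := (hL l).1 hl
      exact ⟨c, (H55P.mem_LF _).2 ⟨y, by push_cast; ring⟩⟩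
    · rintro ⟨k, hk⟩
      obtain ⟨y, hy⟩ := (H55P.mem_LF _).1 hk
      exact ⟨k + 2 * eF F y, (hL _).2 ⟨k, y, by push_cast; ring⟩, by linear_combination hy⟩
  obtain ⟨-, e2, e3⟩ := over_two hA₁ hB₁ hw hw2 hL' he0
  rw [s2, g2] at e2
  rw [s3, g3] at e3
  obtain ⟨e, rfl⟩ : ∃ e, e0 = e * Om ^ 2 := ⟨e0 / Om ^ 2, by field_simp⟩
  have hO4 : Om ^ 4 ≠ 0 := pow_ne_zero 4 hO
  have hO6 : Om ^ 6 ≠ 0 := pow_ne_zero 6 hO
  have f1 : 112 * (A : ℂ) = -85 * e ^ 2 := by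
    have : (112 * (A : ℂ) + 85 * e ^ 2) * Om ^ 4 = 0 := by
      linear_combination (-7 / 4 : ℂ) * e2 - 4 * r1
    linear_combination (mul_eq_zero.1 this).resolve_right hO4
  have f2 : 224 * (B : ℂ) = -57 * e ^ 3 := by
    have : (224 * (B : ℂ) + 57 * e ^ 3) * Om ^ 6 = 0 := by
      linear_combination (-7 / 8 : ℂ) * e3 - 4 * e * Om ^ 2 * r1
    linear_combination (mul_eq_zero.1 this).resolve_right hO6
  have he : e ≠ 0 := by
    rintro rfl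
    apply y4_disc hd
    have a1 : (A : ℂ) = 0 := by linear_combination (1 / 112 : ℂ) * f1
    have a2 : (B : ℂ) = 0 := by linear_combination (1 / 224 : ℂ) * f2
    rw [a1, a2]
    ring
  have hA : (A : ℂ) ≠ 0 := by
    intro h0
    rw [h0, mul_zero] at f1
    have : e ^ 2 = 0 := by linear_combination (1 / 85 : ℂ) * f1
    exact he (pow_eq_zero_iff two_ne_zero |>.1 this)
  obtain ⟨a, ha⟩ : ∃ a : ℚ, (a : ℂ) = -e / 28 := by
    refine ⟨-85 * B / (798 * A), ?_⟩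
    push_cast
    rw [div_eq_iff (mul_ne_zero (by norm_num) hA)]
    linear_combination (-85 / 224 : ℂ) * f2 + (57 / 224 : ℂ) * e * f1
  have he' : e = -28 * a := by linear_combination (28 : ℂ) * ha
  rw [he'] at f1 f2 r1 r2
  refine ⟨a, ?_, ?_, mul_ne_zero two_ne_zero hO, ?_, ?_⟩
  · have : (A : ℂ) = ((-595 * a ^ 2 : ℚ) : ℂ) := by
      push_cast
      linear_combination (1 / 112 : ℂ) * f1
    exact_mod_cast this
  · have : (B : ℂ) = ((5586 * a ^ 3 : ℚ) : ℂ) := by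
      push_cast
      linear_combination (1 / 224 : ℂ) * f2
    exact_mod_cast this
  · rw [hA₁]
    push_cast
    linear_combination (-4 / 7 : ℂ) * r1
  · rw [hB₁]
    push_cast
    linear_combination (-4 / 7 : ℂ) * r2

end H55Y
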