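import Mathlib
import Pool.Agent.Lib.H28I.A1
import Pool.Agent.Lib.H55W.PR
import Pool.Agent.Lib.H55Y.Y5

/-! # H55Y: the final theorem for the curves with complex multiplication by any order -/

open NumberField IsDedekindDomain WeierstrassCurve H55P H55K.TQ

namespace H55Y

open H28I (TW)

/-- The conclusions over K. -/
structure OverK (F : Type) [Field F] [NumberField F] (p : ℕ) (W : WeierstrassCurve ℤ) (K : Type) [Field K] [NumberField K] :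
    Prop where
  int : AnIntG p W K
  crit : AnUnitG p W K ↔ AnUnitG p W ℚ ∧ InPF (W⁄(𝓞 F)) p K
  bsd : AnUnitG p W K → BSDPG p W K
  non : ¬ InPF (W⁄(𝓞 F)) p K → AnNonG p W K ∧ H13Z.SelNonT (W⁄K) p

structure AtP (F : Type) [Field F] [NumberField F] [IQ F] (p : ℕ) (W : WeierstrassCurve ℤ) : Prop where
  res : ∀ (K : Type) [Field K] [NumberField K], SubUF F p K → OverK F p W K
  rich : H28T.Rich (W⁄(𝓞 F)) p
  real : ∀ (H : Type) [Group H] [Finite H] (k : ℕ), Nat.card H = p ^ k → H28T.RealG (W⁄(𝓞 F)) p H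

/-- A prime number dividing the discriminant of W divides the discriminant of W'. -/
theorem y6_dvd {F : Type} [Field F] [NumberField F] [IQ F] {W W' : WeierstrassCurve ℤ} {Om : ℂ} {m : Ideal (𝓞 F)}
    {ψ : Ideal (𝓞 F) →*₀ 𝓞 F} {kap : ℤ} {e t u lam : ℚ} (h : TW F W W' Om m ψ kap e t u lam) {p : ℕ} (hp : p.Prime)
    (hd : (p : ℤ) ∣ W.Δ) : (p : ℤ) ∣ W'.Δ := by
  obtain ⟨π, hπ, hπp⟩ := H55K.S.exists_prime_above (F := F) hp
  have hpr : (Ideal.span {π}).IsPrime := (Ideal.span_singleton_prime hπ.ne_zero).2 hπ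
  have hne : Ideal.span {π} ≠ ⊥ := fun h0 => hπ.ne_zero (Ideal.span_singleton_eq_bot.1 h0)
  let v : HeightOneSpectrum (𝓞 F) := ⟨Ideal.span {π}, hpr, hne⟩
  have hv : (p : 𝓞 F) ∈ v.asIdeal := Ideal.mem_span_singleton.2 hπp
  have e1 : ∀ W : WeierstrassCurve ℤ, (W⁄(𝓞 F)).Δ = ((W.Δ : ℤ) : 𝓞 F) := fun W =>
    (W.map_Δ (algebraMap ℤ (𝓞 F))).trans (by simp)
  have h1 := (H28I.tw_supp h v).2
  rw [e1, e1, H13D.m5_int hp hv, H13D.m5_int hp hv] at h1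
  exact h1 hd

theorem fin1 (hcub : ∀ (F : Type) [Field F] [NumberField F] [IQ F], ∀ w : 𝓞 F, w ^ 2 + w + 1 = 0 → ∀ n : ℤ, n ≠ 0 →
      ∃ κ : 𝓞 F → 𝓞 F, H55W.PRC (𝓞 F) 3 n (3 * n) (27 * n) κ) :
    ∀ (F : Type) [Field F] [NumberField F] [IQ F] (W : WeierstrassCurve ℤ), CMO F W →
      (∀ p : ℕ, p.Prime → 5 ≤ p → ¬ (p : ℤ) ∣ W.Δ → AtP F p W) ∧
      (LNz W ℚ → {p : ℕ | p.Prime ∧ ¬ AnUnitG p W ℚ}.Finite) := by
  intro F _ _ _ W' hC
  rcases y5_cases hC (hcub F) with ⟨Om, hper⟩ | ⟨W, Om, m, ψ, kap, e, t, u, lam, hΔ, hper, h⟩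
  · obtain ⟨hΔ, hmin, -⟩ := hC
    obtain ⟨ψ, hH⟩ := H55W.base_all0 (hcub F) W' Om hΔ hper hmin
    refine ⟨fun p hp h5 hd => ?_, fun hL => ?_⟩
    · have hP := H55W.prime_simple hΔ hper hp h5 hd
      refine ⟨fun K _ _ hK => ?_, H28T.rich_of hH hP, fun H _ _ k hk => H28T.real_Q hH hP H k hk⟩
      obtain ⟨h1, h2, h3⟩ := main_Q hH hP K hK
      exact ⟨int_Q hH hP K hK, h1, h2, h3⟩
    · refine ((prime_almost (W'⁄(𝓞 F)) hH.data.ell).union (an_almost hH hL)).subset fun p hp => ?_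
      obtain ⟨h1, h2⟩ := hp
      by_cases h3 : PrimeH F (W'⁄(𝓞 F)) p
      · exact Or.inr ⟨h1, fun h4 => h2 h4⟩
      · exact Or.inl ⟨h1, h3⟩
  · refine ⟨fun p hp h5 hd => ?_, fun hL => ?_⟩
    · have hP := (H28I.tw_prime h).2 (H55W.prime_simple hΔ hper hp h5 fun h' => hd (y6_dvd h hp h'))
      obtain ⟨r1, r2⟩ := H28I.rich_iso h hP
      refine ⟨fun K _ _ hK => ?_, r1, fun H _ _ k hk => r2 H k hk⟩
      obtain ⟨h0, h1, h2, h3⟩ := H28I.main_iso h hP K hK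
      exact ⟨h0, h1, h2, h3⟩
    · exact (H28I.almost_iso h hL).subset fun p hp => ⟨hp.1, fun h4 => hp.2 h4.2⟩

end H55Y
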